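import Mathlib
import Pool.Agent.Helper292.ForceCH

set_option autoImplicit false

open Set Filter Topology MeasureTheory
open scoped ENNReal BoundedContinuousFunction

namespace Pool.Agent.Results.MP_33144e_an.UnderCH

open Pool.Agent.Helper292.ForceCH (Om countable_Iio exists_bound)

/-! ### Averages and the index set `KK` -/

/-- the average of `z` over the first `N` members of `s` -/
noncomputable def avg (s : ℕ → Om) (N : ℕ) (z : Om → ℝ) : ℝ :=
  (∑ i ∈ Finset.range N, z (s i)) / N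

lemma avg_congr {s : ℕ → Om} {N : ℕ} {z z' : Om → ℝ} (h : ∀ i, z (s i) = z' (s i)) :
    avg s N z = avg s N z' := by
  simp only [avg, h]

/-- the data of the construction -/
structure Data where
  c : Om → ℕ → Om
  q : Om → ℕ → Om
  S : Om → Set ℕ
  hc : ∀ s : ℕ → Om, ∃ ξ, c ξ = s
  hq : ∀ ξ γ : Om, ξ < γ → ∃ k, q γ k = ξ
  hS : ∀ A : Set ℕ, ∃ γ, S γ = A

variable (D : Data)

/-- the condition `z ∈ E_γ` -/
def Good (γ : Om) (z : Om → ℝ) : Prop :=
  ∀ k j : ℕ, k + 3 ≤ j → Function.Injective (D.c (D.q γ k)) → (∀ i, D.c (D.q γ k) i < γ) →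
    |avg (D.c (D.q γ k)) (16 ^ j) z| ≤ (1 / 2) ^ j

lemma good_congr {γ : Om} {z z' : Om → ℝ} (h : ∀ δ < γ, z δ = z' δ) :
    Good D γ z ↔ Good D γ z' := by
  have h1 : ∀ k j, (∀ i, D.c (D.q γ k) i < γ) →
      avg (D.c (D.q γ k)) (16 ^ j) z = avg (D.c (D.q γ k)) (16 ^ j) z' :=
    fun k j hk => avg_congr fun i => h _ (hk i)
  constructor
  · intro hg k j hj hi hk
    rw [← h1 k j hk]
    exact hg k j hj hi hk
  · intro hg k j hj hi hk
    rw [h1 k j hk]
    exact hg k j hj hi hk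

/-- the index set -/
def KK : Set (Om → ℝ) := {z | (∀ γ, |z γ| ≤ 1) ∧ ∀ γ, z γ ≠ 0 → Good D γ z}

/-- the coordinate functions -/
noncomputable def xx (γ : Om) : KK D →ᵇ ℝ :=
  BoundedContinuousFunction.ofNormedAddCommGroup (fun z => z.1 γ)
    ((continuous_apply γ).comp continuous_subtype_val) 1 fun z => by
      rw [Real.norm_eq_abs]; exact z.2.1 γ

lemma xx_apply (γ : Om) (z : KK D) : xx D γ z = z.1 γ := rfl

/-- the Banach space, as a closed subspace -/
noncomputable abbrev XS : Submodule ℝ (KK D →ᵇ ℝ) := (Submodule.span ℝ (range (xx D))).topologicalClosure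

/-- the Banach space -/
def XX : Type := XS D

noncomputable instance : NormedAddCommGroup (XX D) := inferInstanceAs (NormedAddCommGroup (XS D))
noncomputable instance : NormedSpace ℝ (XX D) := inferInstanceAs (NormedSpace ℝ (XS D))
instance : CompleteSpace (XX D) :=
  (Submodule.isClosed_topologicalClosure (Submodule.span ℝ (range (xx D)))).completeSpace_coe

variable {D} in
/-- the underlying function -/
def XX.fn (x : XX D) : KK D →ᵇ ℝ := x.1

lemma fn_add (x y : XX D) : (x + y).fn = x.fn + y.fn := rfl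
lemma fn_smul (a : ℝ) (x : XX D) : (a • x).fn = a • x.fn := rfl
lemma fn_zero : (0 : XX D).fn = 0 := rfl
lemma fn_mem (x : XX D) : x.fn ∈ XS D := x.2
lemma norm_fn (x : XX D) : ‖x.fn‖ = ‖x‖ := rfl
lemma fn_sub (x y : XX D) : (x - y).fn = x.fn - y.fn := rfl
lemma fn_sum {ι : Type} (F : Finset ι) (f : ι → XX D) : (∑ i ∈ F, f i).fn = ∑ i ∈ F, (f i).fn := by
  classical
  induction F using Finset.induction_on with
  | empty => rfl
  | insert a F ha ih => rw [Finset.sum_insert ha, Finset.sum_insert ha, fn_add, ih]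

/-- the coordinate functions as members of the space -/
noncomputable def xe (γ : Om) : XX D :=
  ⟨xx D γ, Submodule.le_topologicalClosure _ (Submodule.subset_span (mem_range_self γ))⟩

lemma xe_fn (γ : Om) : (xe D γ).fn = xx D γ := rfl
lemma xe_apply (γ : Om) (z : KK D) : (xe D γ).fn z = z.1 γ := rfl

/-- blocks -/
lemma exists_blocks {Γ : Set Om} (hΓ : ¬ Γ.Countable) :
    ∃ (s : ℕ → ℕ → Om) (ξ : ℕ → Om), (∀ a, D.c (ξ a) = s a) ∧ (∀ a, Function.Injective (s a)) ∧
      (∀ a i, s a i ∈ Γ) ∧ (∀ a b, a < b → ∀ i, ξ a < s b i) ∧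
      ∀ a b, a < b → ∀ i j, s a i < s b j := by
  have h1 : ∀ β : Om, ∃ s : ℕ → Om, Function.Injective s ∧ (∀ i, s i ∈ Γ) ∧ ∀ i, β < s i := by
    intro β
    have h2 : ¬ (Γ ∩ Ioi β).Countable := by
      intro h3
      apply hΓ
      have h4 : (Iio β).Countable := by
        have := countable_Iio β
        exact Set.countable_coe_iff.1 this
      have h5 : Γ ⊆ (Γ ∩ Ioi β) ∪ (Iio β ∪ {β}) := by
        intro x hx
        rcases lt_trichotomy x β with h | h | h
        · exact Or.inr (Or.inl h)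
        · exact Or.inr (Or.inr h)
        · exact Or.inl ⟨hx, h⟩
      exact (h3.union (h4.union (countable_singleton β))).mono h5
    have h3 : (Γ ∩ Ioi β).Infinite := fun h => h2 h.countable
    have := h3.to_subtype
    let e := Infinite.natEmbedding (Γ ∩ Ioi β : Set Om)
    exact ⟨fun i => (e i).1, fun i j hij => e.injective (Subtype.ext hij),
      fun i => (e i).2.1, fun i => (e i).2.2⟩
  choose t ht1 ht2 ht3 using h1
  have h2 : ∀ s : ℕ → Om, ∃ ξ β : Om, D.c ξ = s ∧ ξ < β ∧ ∀ i, s i < β := by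
    intro s
    obtain ⟨ξ, hξ⟩ := D.hc s
    obtain ⟨β, hβ⟩ := exists_bound (fun n => Nat.casesOn n ξ s)
    exact ⟨ξ, β, hξ, hβ 0, fun i => hβ (i + 1)⟩
  choose x b hx1 hx2 hx3 using h2
  -- `B a` is the bound before block `a`
  obtain ⟨β₀, -⟩ : Γ.Nonempty := by
    rw [Set.nonempty_iff_ne_empty]
    rintro rfl
    exact hΓ countable_empty
  let B : ℕ → Om := fun a => Nat.rec β₀ (fun _ β => b (t β)) a
  have hB : ∀ a, B (a + 1) = b (t (B a)) := fun _ => rfl
  have hBs : ∀ a i, t (B a) i < B (a + 1) := fun a i => by rw [hB]; exact hx3 _ i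
  have hBm : Monotone B := monotone_nat_of_le_succ fun a => (lt_trans (ht3 (B a) 0) (hBs a 0)).le
  refine ⟨fun a => t (B a), fun a => x (t (B a)), fun a => hx1 _, fun a => ht1 _, fun a => ht2 _,
    fun a c hac i => ?_, fun a c hac i j => ?_⟩
  · have h3 : x (t (B a)) < B (a + 1) := by rw [hB]; exact hx2 _
    exact (h3.trans_le (hBm hac)).trans (ht3 _ i)
  · exact ((hBs a i).trans_le (hBm hac)).trans (ht3 _ j)

/-- the average of coordinate functions, as a member of the space -/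
noncomputable def ya (s : ℕ → Om) (N : ℕ) : XX D := (N : ℝ)⁻¹ • ∑ i ∈ Finset.range N, xe D (s i)

lemma ya_apply (s : ℕ → Om) (N : ℕ) (z : KK D) : (ya D s N).fn z = avg s N z.1 := by
  have h1 : (ya D s N).fn = (N : ℝ)⁻¹ • ∑ i ∈ Finset.range N, xx D (s i) := by
    unfold ya
    rw [fn_smul, fn_sum]
    rfl
  rw [h1]
  simp only [BoundedContinuousFunction.coe_smul, BoundedContinuousFunction.coe_sum,
    Finset.sum_apply, xx_apply, smul_eq_mul, avg]
  rw [div_eq_inv_mul]

lemma abs_avg_le (s : ℕ → Om) {N : ℕ} (z : KK D) : |avg s N z.1| ≤ 1 := by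
  unfold avg
  rcases Nat.eq_zero_or_pos N with h | h
  · subst h; simp
  · rw [abs_div, Nat.abs_cast, div_le_one (by exact_mod_cast h)]
    refine (Finset.abs_sum_le_sum_abs _ _).trans ?_
    refine (Finset.sum_le_sum fun i _ => z.2.1 (s i)).trans ?_
    simp

lemma key (φ : XX D →L[ℝ] ℝ) {ε : ℝ} {s : ℕ → ℕ → Om} {ξ : ℕ → Om}
    (hc : ∀ a, D.c (ξ a) = s a) (hinj : ∀ a, Function.Injective (s a))
    (hφ : ∀ a i, ε ≤ φ (xe D (s a i))) (h1 : ∀ a b, a < b → ∀ i, ξ a < s b i)
    (h2 : ∀ a b, a < b → ∀ i j, s a i < s b j) {η : ℝ} (hη : 0 < η) (t : ℕ) :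
    ∀ a : ℕ, ∃ (y : XX D) (F : Finset Om), (∀ γ ∈ F, ∃ b, a ≤ b ∧ ∃ i, γ = s b i) ∧
      (∀ z : KK D, (∀ γ ∈ F, z.1 γ = 0) → y.fn z = 0) ∧ (∀ z : KK D, |y.fn z| ≤ 1 + t * η) ∧
      t * ε ≤ φ y := by
  classical
  induction t with
  | zero =>
    intro a
    exact ⟨0, ∅, by simp, by simp [fn_zero], by simp [fn_zero], by simp⟩
  | succ t ih =>
    intro a
    obtain ⟨y', F', hF1, hF2, hF3, hF4⟩ := ih (a + 1)
    have hk : ∀ γ : Om, ∃ k, γ ∈ F' → D.q γ k = ξ a := by
      intro γ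
      by_cases hγ : γ ∈ F'
      · obtain ⟨b, hb, i, rfl⟩ := hF1 γ hγ
        obtain ⟨k, hk⟩ := D.hq (ξ a) (s b i) (h1 a b hb i)
        exact ⟨k, fun _ => hk⟩
      · exact ⟨0, fun h => absurd h hγ⟩
    choose k hk using hk
    obtain ⟨j0, hj0⟩ := exists_pow_lt_of_lt_one hη (by norm_num : (1 / 2 : ℝ) < 1)
    set j := max j0 (F'.sup fun γ => k γ + 3) with hj
    have hjη : (1 / 2 : ℝ) ^ j ≤ η :=
      (pow_le_pow_of_le_one (by norm_num) (by norm_num) (le_max_left _ _)).trans hj0.le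
    have hjk : ∀ γ ∈ F', k γ + 3 ≤ j := fun γ hγ =>
      (Finset.le_sup (f := fun γ => k γ + 3) hγ).trans (le_max_right _ _)
    refine ⟨ya D (s a) (16 ^ j) + y', F' ∪ (Finset.range (16 ^ j)).image (s a), ?_, ?_, ?_, ?_⟩
    · intro γ hγ
      rcases Finset.mem_union.1 hγ with h | h
      · obtain ⟨b, hb, i, rfl⟩ := hF1 γ h
        exact ⟨b, (Nat.le_succ a).trans hb, i, rfl⟩
      · obtain ⟨i, -, rfl⟩ := Finset.mem_image.1 h
        exact ⟨a, le_rfl, i, rfl⟩
    · intro z hz
      have h3 : y'.fn z = 0 := hF2 z fun γ hγ => hz γ (Finset.mem_union_left _ hγ)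
      have h4 : (ya D (s a) (16 ^ j)).fn z = 0 := by
        rw [ya_apply, avg, Finset.sum_eq_zero, zero_div]
        intro i hi
        exact hz _ (Finset.mem_union_right _ (Finset.mem_image_of_mem _ hi))
      change (ya D (s a) (16 ^ j)).fn z + y'.fn z = 0
      rw [h3, h4, add_zero]
    · intro z
      change |(ya D (s a) (16 ^ j)).fn z + y'.fn z| ≤ _
      rw [ya_apply]
      push_cast
      by_cases hz : ∀ γ ∈ F', z.1 γ = 0
      · rw [hF2 z hz, add_zero]
        refine (abs_avg_le D (s a) z).trans ?_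
        have : (0 : ℝ) ≤ (t + 1) * η := by positivity
        linarith
      · push Not at hz
        obtain ⟨γ, hγ, hzγ⟩ := hz
        have h3 := z.2.2 γ hzγ (k γ) j (hjk γ hγ)
        rw [hk γ hγ, hc a] at h3
        obtain ⟨b, hb, i, hbi⟩ := hF1 γ hγ
        have h4 := h3 (hinj a) (fun i' => by rw [hbi]; exact h2 a b hb i' i)
        have h5 := hF3 z
        refine (abs_add_le _ _).trans ?_
        linarith
    · rw [map_add]
      have h3 : ε ≤ φ (ya D (s a) (16 ^ j)) := by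
        unfold ya
        rw [map_smul, map_sum, smul_eq_mul]
        have h4 : ((16 ^ j : ℕ) : ℝ) * ε ≤ ∑ i ∈ Finset.range (16 ^ j), φ (xe D (s a i)) := by
          have := Finset.card_nsmul_le_sum (Finset.range (16 ^ j))
            (fun i => φ (xe D (s a i))) ε (fun i _ => hφ a i)
          simpa using this
        have h5 : (0 : ℝ) < ((16 ^ j : ℕ) : ℝ) := by positivity
        rw [inv_mul_eq_div, le_div_iff₀ h5]
        linarith
      push_cast
      linarith

/-- every functional vanishes at all but countably many of the coordinate functions -/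
lemma countable_ge (φ : XX D →L[ℝ] ℝ) {ε : ℝ} (hε : 0 < ε) :
    {γ | ε ≤ φ (xe D γ)}.Countable := by
  by_contra hcon
  obtain ⟨s, ξ, hc, hinj, hs, h1, h2⟩ := exists_blocks D hcon
  obtain ⟨m, hm⟩ := exists_nat_gt (2 * ‖φ‖ / ε)
  rw [div_lt_iff₀ hε] at hm
  have hm0 : (0 : ℝ) < m := by
    by_contra h
    have h3 : (m : ℝ) = 0 := le_antisymm (not_lt.1 h) (Nat.cast_nonneg m)
    rw [h3, zero_mul] at hm
    have := norm_nonneg φ
    linarith
  obtain ⟨y, F, -, -, hy1, hy2⟩ := key D φ hc hinj hs h1 h2 (η := 1 / m) (by positivity) m 0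
  have h3 : ‖y‖ ≤ 2 := by
    rw [← norm_fn, BoundedContinuousFunction.norm_le (by norm_num)]
    intro z
    rw [Real.norm_eq_abs]
    refine (hy1 z).trans ?_
    rw [mul_one_div_cancel hm0.ne']
    norm_num
  have h4 : φ y ≤ ‖φ‖ * ‖y‖ := (le_abs_self _).trans (φ.le_opNorm y)
  have h5 := norm_nonneg φ
  nlinarith

lemma countable_support (φ : XX D →L[ℝ] ℝ) : {γ | φ (xe D γ) ≠ 0}.Countable := by
  have h1 : {γ | φ (xe D γ) ≠ 0} ⊆ ⋃ k : ℕ, ({γ | 1 / ((k : ℝ) + 1) ≤ φ (xe D γ)} ∪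
      {γ | 1 / ((k : ℝ) + 1) ≤ (-φ) (xe D γ)}) := by
    intro γ hγ
    obtain ⟨k, hk⟩ := exists_nat_one_div_lt (abs_pos.2 hγ)
    refine mem_iUnion.2 ⟨k, ?_⟩
    rcases le_total 0 (φ (xe D γ)) with h | h
    · left
      rw [abs_of_nonneg h] at hk
      exact hk.le
    · right
      rw [abs_of_nonpos h] at hk
      exact hk.le
  refine Set.Countable.mono h1 (countable_iUnion fun k => ?_)
  exact (countable_ge D φ (by positivity)).union (countable_ge D (-φ) (by positivity))


/-! ### The dual ball of `XX` -/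

/-- the dual unit ball is weak* sequentially compact -/
def DualBallSeqCompact (Y : Type) [NormedAddCommGroup Y] [NormedSpace ℝ Y] : Prop :=
  ∀ φ : ℕ → (Y →L[ℝ] ℝ), (∀ n, ‖φ n‖ ≤ 1) →
    ∃ ψ : Y →L[ℝ] ℝ, ‖ψ‖ ≤ 1 ∧ ∃ k : ℕ → ℕ, StrictMono k ∧
      ∀ x : Y, Tendsto (fun n => φ (k n) x) atTop (𝓝 (ψ x))

section limit

variable {Y : Type} [NormedAddCommGroup Y] [NormedSpace ℝ Y]

lemma exists_limit (φ : ℕ → (Y →L[ℝ] ℝ)) (hφ : ∀ n, ‖φ n‖ ≤ 1) (G : Set Y)
    (hG : Dense (Submodule.span ℝ G : Set Y))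
    (h : ∀ g ∈ G, ∃ l, Tendsto (fun n => φ n g) atTop (𝓝 l)) :
    ∃ ψ : Y →L[ℝ] ℝ, ‖ψ‖ ≤ 1 ∧ ∀ x, Tendsto (fun n => φ n x) atTop (𝓝 (ψ x)) := by
  have h1 : ∀ x ∈ Submodule.span ℝ G, ∃ l, Tendsto (fun n => φ n x) atTop (𝓝 l) := by
    intro x hx
    induction hx using Submodule.span_induction with
    | mem x hx => exact h x hx
    | zero => exact ⟨0, by simp⟩
    | add x y _ _ hx hy =>
      obtain ⟨l, hl⟩ := hx
      obtain ⟨m, hm⟩ := hy
      exact ⟨l + m, by simpa using hl.add hm⟩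
    | smul a x _ hx =>
      obtain ⟨l, hl⟩ := hx
      exact ⟨a * l, by simpa using hl.const_mul a⟩
  have h2 : ∀ x, ∃ l, Tendsto (fun n => φ n x) atTop (𝓝 l) := by
    intro x
    apply cauchySeq_tendsto_of_complete
    rw [Metric.cauchySeq_iff]
    intro ε hε
    obtain ⟨w, hw1, hw2⟩ := hG.exists_dist_lt x (show 0 < ε / 3 by positivity)
    obtain ⟨l, hl⟩ := h1 w hw1
    obtain ⟨N, hN⟩ := Metric.cauchySeq_iff.1 hl.cauchySeq (ε / 3) (by positivity)
    refine ⟨N, fun m hm n hn => ?_⟩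
    have h3 := hN m hm n hn
    have h4 : ∀ k, dist (φ k x) (φ k w) ≤ dist x w := by
      intro k
      rw [dist_eq_norm, dist_eq_norm, ← map_sub]
      refine ((φ k).le_opNorm _).trans ?_
      have := hφ k
      have h5 := norm_nonneg (x - w)
      nlinarith
    have h5 := h4 m
    have h6 := h4 n
    have h7 := dist_triangle4 (φ m x) (φ m w) (φ n w) (φ n x)
    rw [dist_comm (φ n w)] at h7
    linarith
  choose f hf using h2
  have hadd : ∀ x y, f (x + y) = f x + f y := fun x y =>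
    tendsto_nhds_unique (hf (x + y)) (by simpa using (hf x).add (hf y))
  have hsmul : ∀ (a : ℝ) x, f (a • x) = a * f x := fun a x =>
    tendsto_nhds_unique (hf (a • x)) (by simpa using (hf x).const_mul a)
  have hle : ∀ x, ‖f x‖ ≤ 1 * ‖x‖ := fun x =>
    le_of_tendsto (hf x).norm (Eventually.of_forall fun n =>
      ((φ n).le_opNorm x).trans (mul_le_mul_of_nonneg_right (hφ n) (norm_nonneg x)))
  let L : Y →ₗ[ℝ] ℝ := { toFun := f, map_add' := hadd, map_smul' := hsmul }
  exact ⟨L.mkContinuous 1 hle, L.mkContinuous_norm_le zero_le_one hle, hf⟩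

end limit

lemma dense_span : Dense (Submodule.span ℝ (range (xe D)) : Set (XX D)) := by
  rw [Metric.dense_iff]
  intro x r hr
  have h1 : x.fn ∈ closure (Submodule.span ℝ (range (xx D)) : Set (KK D →ᵇ ℝ)) := by
    have := fn_mem D x
    rwa [← Submodule.topologicalClosure_coe]
  obtain ⟨v, hv, hvx⟩ := Metric.mem_closure_iff.1 h1 r hr
  have h2 : ∀ v ∈ Submodule.span ℝ (range (xx D)), ∃ w ∈ Submodule.span ℝ (range (xe D)),
      w.fn = v := by
    intro v hv
    induction hv using Submodule.span_induction with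
    | mem v hv =>
      obtain ⟨γ, rfl⟩ := hv
      exact ⟨xe D γ, Submodule.subset_span (mem_range_self γ), rfl⟩
    | zero => exact ⟨0, Submodule.zero_mem _, rfl⟩
    | add v w _ _ hv hw =>
      obtain ⟨a, ha, rfl⟩ := hv
      obtain ⟨b, hb, rfl⟩ := hw
      exact ⟨a + b, Submodule.add_mem _ ha hb, rfl⟩
    | smul a v _ hv =>
      obtain ⟨b, hb, rfl⟩ := hv
      exact ⟨a • b, Submodule.smul_mem _ a hb, rfl⟩
  obtain ⟨w, hw, rfl⟩ := h2 v hv
  refine ⟨w, ?_, hw⟩
  rw [Metric.mem_ball, dist_comm]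
  exact hvx

lemma norm_xe_le (γ : Om) : ‖xe D γ‖ ≤ 1 := by
  rw [← norm_fn, BoundedContinuousFunction.norm_le zero_le_one]
  intro z
  rw [Real.norm_eq_abs]
  exact z.2.1 γ

theorem dualBall_XX : DualBallSeqCompact (XX D) := by
  intro φ hφ
  set C : Set Om := ⋃ n, {γ | φ n (xe D γ) ≠ 0} with hC
  have hCc : C.Countable := countable_iUnion fun n => countable_support D (φ n)
  have : Countable C := hCc.to_subtype
  have h1 : IsCompact (univ.pi fun _ : C => Icc (-1 : ℝ) 1) :=
    isCompact_univ_pi fun _ => isCompact_Icc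
  obtain ⟨l, -, k, hk, hl⟩ := h1.tendsto_subseq (x := fun n (γ : C) => φ n (xe D γ)) (fun n γ _ => by
    have h2 : |φ n (xe D γ)| ≤ 1 := by
      have h3 := (φ n).le_opNorm (xe D γ)
      have h4 := hφ n
      have h5 := norm_xe_le D γ
      have h6 := norm_nonneg (xe D γ.1)
      rw [Real.norm_eq_abs] at h3
      nlinarith [norm_nonneg (φ n)]
    exact abs_le.1 h2)
  rw [tendsto_pi_nhds] at hl
  obtain ⟨ψ, hψ, h⟩ := exists_limit (fun n => φ (k n)) (fun n => hφ _) (range (xe D)) (dense_span D)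
    (by
      rintro _ ⟨γ, rfl⟩
      by_cases hγ : γ ∈ C
      · exact ⟨_, hl ⟨γ, hγ⟩⟩
      · refine ⟨0, tendsto_const_nhds.congr fun n => ?_⟩
        have h2 : ∀ n, φ n (xe D γ) = 0 := by
          intro n
          by_contra h3
          exact hγ (mem_iUnion.2 ⟨n, h3⟩)
        exact (h2 _).symm)
  exact ⟨ψ, hψ, k, hk, h⟩


/-! ### The random points -/

/-- the sign given by a bit -/
noncomputable def sg (b : Bool) : ℝ := if b then 1 else -1

lemma sg_not (b : Bool) : sg (!b) = - sg b := by cases b <;> simp [sg]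
lemma sg_mul_self (b : Bool) : sg b * sg b = 1 := by cases b <;> simp [sg]
lemma abs_sg (b : Bool) : |sg b| = 1 := by cases b <;> simp [sg]

open Classical in
/-- the random point of `KK` -/
noncomputable def zz (n : ℕ) (ω : Om → Bool) : Om → ℝ :=
  (wellFounded_lt (α := Om)).fix fun γ rec =>
    if n ∈ D.S γ ∧ Good D γ (fun δ => if h : δ < γ then rec δ h else 0) then sg (ω γ) else 0

open Classical in
lemma zz_eq (n : ℕ) (ω : Om → Bool) (γ : Om) :
    zz D n ω γ = if n ∈ D.S γ ∧ Good D γ (zz D n ω) then sg (ω γ) else 0 := by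
  have h1 : zz D n ω γ = if n ∈ D.S γ ∧
      Good D γ (fun δ => if _h : δ < γ then zz D n ω δ else 0) then sg (ω γ) else 0 := by
    unfold zz
    rw [WellFounded.fix_eq]
  rw [h1]
  have h2 : Good D γ (fun δ => if _h : δ < γ then zz D n ω δ else 0) ↔ Good D γ (zz D n ω) :=
    good_congr D fun δ hδ => by simp [hδ]
  simp only [h2]

lemma abs_zz_le (n : ℕ) (ω : Om → Bool) (γ : Om) : |zz D n ω γ| ≤ 1 := by
  rw [zz_eq]
  split_ifs
  · rw [abs_sg]
  · simp

/-- the random point, as a member of `KK` -/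
noncomputable def pt (n : ℕ) (ω : Om → Bool) : KK D :=
  ⟨zz D n ω, abs_zz_le D n ω, fun γ hγ => by
    rw [zz_eq] at hγ
    split_ifs at hγ with h
    · exact h.2
    · exact absurd rfl hγ⟩

lemma zz_congr (n : ℕ) {ω ω' : Om → Bool} (γ : Om) (h : ∀ δ ≤ γ, ω δ = ω' δ) :
    zz D n ω γ = zz D n ω' γ := by
  induction γ using (wellFounded_lt (α := Om)).induction with
  | _ γ ih =>
    rw [zz_eq, zz_eq D n ω', h γ le_rfl]
    have h2 : Good D γ (zz D n ω) ↔ Good D γ (zz D n ω') :=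
      good_congr D fun δ hδ => ih δ hδ fun δ' hδ' => h δ' (hδ'.trans hδ.le)
    by_cases h3 : n ∈ D.S γ ∧ Good D γ (zz D n ω')
    · rw [if_pos h3, if_pos ⟨h3.1, h2.2 h3.2⟩]
    · rw [if_neg h3, if_neg fun h4 => h3 ⟨h4.1, h2.1 h4.2⟩]

lemma measurable_avg (n : ℕ) {s : ℕ → Om} (N : ℕ)
    (h : ∀ i, Measurable fun ω : Om → Bool => zz D n ω (s i)) :
    Measurable fun ω => avg s N (zz D n ω) := by
  unfold avg
  exact (Finset.measurable_sum _ fun i _ => h i).div_const _

lemma measurableSet_good_aux (n : ℕ) (γ : Om)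
    (h : ∀ δ < γ, Measurable fun ω : Om → Bool => zz D n ω δ) :
    MeasurableSet {ω : Om → Bool | Good D γ (zz D n ω)} := by
  have h1 : {ω : Om → Bool | Good D γ (zz D n ω)} = ⋂ (k : ℕ) (j : ℕ) (_ : k + 3 ≤ j)
      (_ : Function.Injective (D.c (D.q γ k))) (_ : ∀ i, D.c (D.q γ k) i < γ),
      {ω | |avg (D.c (D.q γ k)) (16 ^ j) (zz D n ω)| ≤ (1 / 2) ^ j} := by
    ext ω
    simp only [Good, mem_ofPred_eq, mem_iInter]
  rw [h1]
  refine MeasurableSet.iInter fun k => MeasurableSet.iInter fun j => MeasurableSet.iInter fun _ =>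
    MeasurableSet.iInter fun _ => MeasurableSet.iInter fun hk => ?_
  exact measurableSet_le (measurable_avg D n _ fun i => h _ (hk i)).abs measurable_const

lemma measurable_sg : Measurable sg := measurable_of_countable _

lemma measurable_zz (n : ℕ) (γ : Om) : Measurable fun ω : Om → Bool => zz D n ω γ := by
  classical
  induction γ using (wellFounded_lt (α := Om)).induction with
  | _ γ ih =>
    have h1 : (fun ω : Om → Bool => zz D n ω γ) = fun ω =>
        if ω ∈ {ω : Om → Bool | Good D γ (zz D n ω)} then (if n ∈ D.S γ then sg (ω γ) else 0)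
        else 0 := by
      funext ω
      rw [zz_eq]
      by_cases h2 : n ∈ D.S γ <;> by_cases h3 : Good D γ (zz D n ω) <;> simp [h2, h3]
    rw [h1]
    refine Measurable.ite (measurableSet_good_aux D n γ ih) ?_ measurable_const
    split_ifs
    · exact measurable_sg.comp (measurable_pi_apply γ)
    · exact measurable_const

lemma measurableSet_good (n : ℕ) (γ : Om) :
    MeasurableSet {ω : Om → Bool | Good D γ (zz D n ω)} :=
  measurableSet_good_aux D n γ fun δ _ => measurable_zz D n δ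

/-! ### The measure -/

/-- the fair coin -/
noncomputable def coin : Measure Bool := (2⁻¹ : ℝ≥0∞) • (Measure.dirac true + Measure.dirac false)

instance : IsProbabilityMeasure coin := by
  constructor
  unfold coin
  rw [Measure.smul_apply, Measure.add_apply, measure_univ, measure_univ, smul_eq_mul,
    one_add_one_eq_two]
  exact ENNReal.inv_mul_cancel (by norm_num) (by norm_num)

lemma coin_map_not : coin.map not = coin := by
  unfold coin
  rw [Measure.map_smul, Measure.map_add _ _ (measurable_of_countable _),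
    Measure.map_dirac' (measurable_of_countable _), Measure.map_dirac' (measurable_of_countable _),
    Bool.not_true, Bool.not_false, add_comm]

/-- the product measure -/
noncomputable def PP : Measure (Om → Bool) := Measure.infinitePi fun _ => coin

instance : IsProbabilityMeasure PP := by unfold PP; infer_instance

open Classical in
/-- change the bit at `γ` -/
noncomputable def flp (γ : Om) (ω : Om → Bool) : Om → Bool :=
  fun δ => (if δ = γ then not else id) (ω δ)

lemma flp_self (γ : Om) (ω : Om → Bool) : flp γ ω γ = !(ω γ) := by simp [flp]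
lemma flp_of_ne {γ δ : Om} (h : δ ≠ γ) (ω : Om → Bool) : flp γ ω δ = ω δ := by simp [flp, h]

lemma map_flp (γ : Om) : PP.map (flp γ) = PP := by
  classical
  unfold PP flp
  rw [Measure.infinitePi_map_pi (μ := fun _ : Om => coin)
    (f := fun δ => if δ = γ then not else id) (fun δ => measurable_of_countable _)]
  congr 1
  funext δ
  split_ifs
  · exact coin_map_not
  · exact Measure.map_id

lemma measurable_flp (γ : Om) : Measurable (flp γ) := by
  classical
  unfold flp
  exact measurable_pi_lambda _ fun δ => (measurable_of_countable _).comp (measurable_pi_apply δ)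

lemma integral_eq_zero {F : (Om → Bool) → ℝ} (hF : Measurable F) (γ : Om)
    (h : ∀ ω, F (flp γ ω) = - F ω) : ∫ ω, F ω ∂PP = 0 := by
  have h1 : ∫ ω, F ω ∂PP = ∫ ω, F (flp γ ω) ∂PP := by
    conv_lhs => rw [← map_flp γ]
    exact integral_map (measurable_flp γ).aemeasurable hF.aestronglyMeasurable
  simp only [h] at h1
  rw [integral_neg] at h1
  linarith

lemma orth_lt (n : ℕ) {δ γ : Om} (h : δ < γ) : ∫ ω, zz D n ω δ * zz D n ω γ ∂PP = 0 := by
  refine integral_eq_zero ((measurable_zz D n δ).mul (measurable_zz D n γ)) γ fun ω => ?_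
  have h1 : ∀ δ < γ, zz D n (flp γ ω) δ = zz D n ω δ := fun δ hδ =>
    zz_congr D n δ fun δ' hδ' => flp_of_ne (hδ'.trans_lt hδ).ne ω
  have h2 : zz D n (flp γ ω) γ = - zz D n ω γ := by
    rw [zz_eq, zz_eq D n ω, flp_self, sg_not]
    have h3 : Good D γ (zz D n (flp γ ω)) ↔ Good D γ (zz D n ω) := good_congr D h1
    by_cases h4 : n ∈ D.S γ ∧ Good D γ (zz D n ω)
    · rw [if_pos h4, if_pos ⟨h4.1, h3.2 h4.2⟩]
    · rw [if_neg h4, if_neg fun h5 => h4 ⟨h5.1, h3.1 h5.2⟩, neg_zero]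
  rw [h1 δ h, h2]
  ring

lemma orth (n : ℕ) {δ γ : Om} (h : δ ≠ γ) : ∫ ω, zz D n ω δ * zz D n ω γ ∂PP = 0 := by
  rcases lt_or_gt_of_ne h with h | h
  · exact orth_lt D n h
  · simp only [mul_comm (zz D n _ δ)]
    exact orth_lt D n h

lemma integrable_of_bounded {F : (Om → Bool) → ℝ} (hF : Measurable F) {C : ℝ}
    (h : ∀ ω, |F ω| ≤ C) : Integrable F PP :=
  Integrable.of_bound hF.aestronglyMeasurable C (Eventually.of_forall fun ω => by
    rw [Real.norm_eq_abs]; exact h ω)

lemma integrable_mul (n : ℕ) (δ γ : Om) : Integrable (fun ω => zz D n ω δ * zz D n ω γ) PP :=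
  integrable_of_bounded ((measurable_zz D n δ).mul (measurable_zz D n γ)) (C := 1) fun ω => by
    rw [abs_mul]
    have h1 := abs_zz_le D n ω δ
    have h2 := abs_zz_le D n ω γ
    have h3 := abs_nonneg (zz D n ω δ)
    have h4 := abs_nonneg (zz D n ω γ)
    nlinarith

lemma second_moment (n : ℕ) {s : ℕ → Om} (hs : Function.Injective s) (N : ℕ) :
    ∫ ω, (∑ i ∈ Finset.range N, zz D n ω (s i)) ^ 2 ∂PP ≤ N := by
  have h1 : ∀ ω, (∑ i ∈ Finset.range N, zz D n ω (s i)) ^ 2 =
      ∑ i ∈ Finset.range N, ∑ j ∈ Finset.range N, zz D n ω (s i) * zz D n ω (s j) := by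
    intro ω
    rw [sq, Finset.sum_mul_sum]
  simp only [h1]
  rw [integral_finsetSum _ fun i _ => integrable_finsetSum _ fun j _ => integrable_mul D n _ _]
  have h2 : ∀ i ∈ Finset.range N,
      ∫ ω, ∑ j ∈ Finset.range N, zz D n ω (s i) * zz D n ω (s j) ∂PP ≤ 1 := by
    intro i hi
    rw [integral_finsetSum _ fun j _ => integrable_mul D n _ _, Finset.sum_eq_single i]
    · have h3 : ∫ ω, zz D n ω (s i) * zz D n ω (s i) ∂PP ≤ ∫ _, (1 : ℝ) ∂PP := by
        apply integral_mono (integrable_mul D n _ _) (integrable_const _)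
        intro ω
        have h4 := abs_le.1 (abs_zz_le D n ω (s i))
        simp only
        nlinarith
      simpa using h3
    · intro j _ hji
      exact orth D n fun h => hji (hs h).symm
    · intro h
      exact absurd hi h
  refine (Finset.sum_le_sum h2).trans ?_
  simp

lemma measure_avg_le (n : ℕ) {s : ℕ → Om} (hs : Function.Injective s) (j : ℕ) :
    PP {ω | ¬ |avg s (16 ^ j) (zz D n ω)| ≤ (1 / 2) ^ j} ≤ (4⁻¹ : ℝ≥0∞) ^ j := by
  have hmeas : Measurable fun ω => ∑ i ∈ Finset.range (16 ^ j), zz D n ω (s i) :=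
    Finset.measurable_sum _ fun i _ => measurable_zz D n (s i)
  have hint : Integrable (fun ω => (∑ i ∈ Finset.range (16 ^ j), zz D n ω (s i)) ^ 2) PP := by
    refine integrable_of_bounded (hmeas.pow_const 2) (C := ((16 ^ j : ℕ) : ℝ) ^ 2) fun ω => ?_
    rw [abs_pow]
    refine pow_le_pow_left₀ (abs_nonneg _) ?_ 2
    refine (Finset.abs_sum_le_sum_abs _ _).trans ?_
    refine (Finset.sum_le_sum fun i _ => abs_zz_le D n ω (s i)).trans ?_
    simp
  have h1 := mul_meas_ge_le_integral_of_nonneg (μ := PP)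
    (Eventually.of_forall fun ω => sq_nonneg (∑ i ∈ Finset.range (16 ^ j), zz D n ω (s i))) hint
    ((64 : ℝ) ^ j)
  have h2 := second_moment D n hs (16 ^ j)
  have h3 : {ω | ¬ |avg s (16 ^ j) (zz D n ω)| ≤ (1 / 2) ^ j} ⊆
      {ω | (64 : ℝ) ^ j ≤ (∑ i ∈ Finset.range (16 ^ j), zz D n ω (s i)) ^ 2} := by
    intro ω hω
    simp only [mem_ofPred_eq, not_le] at hω ⊢
    unfold avg at hω
    have h4 : (0 : ℝ) < ((16 ^ j : ℕ) : ℝ) := by positivity
    rw [abs_div, Nat.abs_cast, lt_div_iff₀ h4] at hω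
    have h5 : (1 / 2 : ℝ) ^ j * ((16 ^ j : ℕ) : ℝ) = 8 ^ j := by
      push_cast
      rw [← mul_pow]
      norm_num
    rw [h5] at hω
    have h6 : (64 : ℝ) ^ j = (8 ^ j) ^ 2 := by
      rw [← pow_mul, mul_comm, pow_mul]
      norm_num
    rw [h6, ← sq_abs (∑ i ∈ Finset.range (16 ^ j), zz D n ω (s i))]
    exact pow_le_pow_left₀ (by positivity) hω.le 2
  have h4 : (PP {ω | (64 : ℝ) ^ j ≤ (∑ i ∈ Finset.range (16 ^ j), zz D n ω (s i)) ^ 2}).toReal ≤
      (1 / 4) ^ j := by
    have h5 : (64 : ℝ) ^ j * (PP {ω | (64 : ℝ) ^ j ≤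
        (∑ i ∈ Finset.range (16 ^ j), zz D n ω (s i)) ^ 2}).toReal ≤ 16 ^ j := by
      have := h1.trans h2
      simpa [Measure.real] using this
    have h6 : (1 / 4 : ℝ) ^ j = 16 ^ j / 64 ^ j := by
      rw [← div_pow]
      norm_num
    rw [h6, le_div_iff₀ (by positivity)]
    linarith
  refine (measure_mono h3).trans ?_
  rw [← ENNReal.ofReal_toReal (measure_ne_top PP _)]
  refine (ENNReal.ofReal_le_ofReal h4).trans ?_
  rw [ENNReal.ofReal_pow (by norm_num)]
  refine le_of_eq ?_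
  congr 1
  rw [one_div, ENNReal.ofReal_inv_of_pos (by norm_num)]
  norm_num

lemma measure_good (n : ℕ) (γ : Om) : (2⁻¹ : ℝ≥0∞) ≤ PP {ω | Good D γ (zz D n ω)} := by
  have h1 : {ω | Good D γ (zz D n ω)}ᶜ ⊆ ⋃ k : ℕ, ⋃ j : ℕ, {ω : Om → Bool | k + 3 ≤ j ∧
      Function.Injective (D.c (D.q γ k)) ∧
      ¬ |avg (D.c (D.q γ k)) (16 ^ j) (zz D n ω)| ≤ (1 / 2) ^ j} := by
    intro ω hω
    simp only [mem_compl_iff, mem_ofPred_eq, Good] at hω
    push Not at hω
    obtain ⟨k, j, hkj, hi, hb, h⟩ := hω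
    exact mem_iUnion.2 ⟨k, mem_iUnion.2 ⟨j, hkj, hi, not_le.2 h⟩⟩
  have h2 : ∀ k j : ℕ, PP {ω : Om → Bool | k + 3 ≤ j ∧
      Function.Injective (D.c (D.q γ k)) ∧
      ¬ |avg (D.c (D.q γ k)) (16 ^ j) (zz D n ω)| ≤ (1 / 2) ^ j} ≤
      (2⁻¹ : ℝ≥0∞) ^ (k + 3) * (2⁻¹ : ℝ≥0∞) ^ j := by
    intro k j
    by_cases h3 : k + 3 ≤ j ∧ Function.Injective (D.c (D.q γ k))
    · have h4 := measure_avg_le D n h3.2 j
      refine (measure_mono fun ω hω => hω.2.2).trans (h4.trans ?_)
      have h5 : (4⁻¹ : ℝ≥0∞) ^ j = (2⁻¹ : ℝ≥0∞) ^ j * (2⁻¹ : ℝ≥0∞) ^ j := by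
        rw [← mul_pow, ← ENNReal.mul_inv (by norm_num) (by norm_num)]
        norm_num
      rw [h5]
      exact mul_le_mul_left (pow_le_pow_right_of_le_one' (by simp) h3.1) _
    · have h4 : {ω : Om → Bool | k + 3 ≤ j ∧ Function.Injective (D.c (D.q γ k)) ∧
          ¬ |avg (D.c (D.q γ k)) (16 ^ j) (zz D n ω)| ≤ (1 / 2) ^ j} = ∅ := by
        rw [Set.eq_empty_iff_forall_notMem]
        intro ω hω
        exact h3 ⟨hω.1, hω.2.1⟩
      rw [h4, measure_empty]
      exact zero_le
  have h3 : PP {ω | Good D γ (zz D n ω)}ᶜ ≤ 2⁻¹ := by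
    calc PP {ω | Good D γ (zz D n ω)}ᶜ ≤ ∑' k : ℕ, ∑' j : ℕ,
          (2⁻¹ : ℝ≥0∞) ^ (k + 3) * (2⁻¹ : ℝ≥0∞) ^ j := by
          refine (measure_mono h1).trans ((measure_iUnion_le _).trans ?_)
          refine ENNReal.tsum_le_tsum fun k => (measure_iUnion_le _).trans ?_
          exact ENNReal.tsum_le_tsum fun j => h2 k j
      _ = 2⁻¹ := by
          simp only [ENNReal.tsum_mul_left, ENNReal.tsum_geometric_two, pow_add,
            ENNReal.tsum_mul_right]
          have h4 : (2 : ℝ≥0∞) * (2⁻¹ : ℝ≥0∞) ^ 3 * 2 = 2⁻¹ := by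
            have h5 : (2 : ℝ≥0∞) * 2⁻¹ = 1 := ENNReal.mul_inv_cancel (by norm_num) (by norm_num)
            calc (2 : ℝ≥0∞) * (2⁻¹ : ℝ≥0∞) ^ 3 * 2 = (2 * 2⁻¹) * (2 * 2⁻¹) * 2⁻¹ := by ring
              _ = 2⁻¹ := by rw [h5, one_mul, one_mul]
          exact h4
  have h4 := prob_compl_eq_one_sub (μ := PP) (measurableSet_good D n γ)
  have h5 : PP {ω | Good D γ (zz D n ω)} = 1 - PP {ω | Good D γ (zz D n ω)}ᶜ := by
    rw [prob_compl_eq_one_sub (measurableSet_good D n γ)]
    exact (ENNReal.sub_sub_cancel ENNReal.one_ne_top prob_le_one).symm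
  rw [h5, ← ENNReal.one_sub_inv_two]
  exact tsub_le_tsub_left h3 1


/-! ### The functionals -/

lemma abs_fn_le (x : XX D) (z : KK D) : |x.fn z| ≤ ‖x‖ := by
  rw [← Real.norm_eq_abs, ← norm_fn]
  exact x.fn.norm_coe_le_norm z

lemma continuous_fn (z : KK D) : Continuous fun x : XX D => x.fn z := by
  rw [Metric.continuous_iff]
  intro x ε hε
  refine ⟨ε, hε, fun y hy => ?_⟩
  rw [Real.dist_eq]
  refine lt_of_le_of_lt ?_ hy
  rw [dist_eq_norm]
  exact abs_fn_le D (y - x) z

lemma measurable_fn (n : ℕ) (x : XX D) : Measurable fun ω => x.fn (pt D n ω) := by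
  have h1 : ∀ w ∈ Submodule.span ℝ (range (xe D)), Measurable fun ω => w.fn (pt D n ω) := by
    intro w hw
    induction hw using Submodule.span_induction with
    | mem w hw =>
      obtain ⟨γ, rfl⟩ := hw
      exact measurable_zz D n γ
    | zero => exact measurable_const
    | add v w _ _ hv hw => exact hv.add hw
    | smul a v _ hv => exact hv.const_mul a
  obtain ⟨w, hw, hwx⟩ := mem_closure_iff_seq_limit.1 (dense_span D x)
  refine measurable_of_tendsto_metrizable (f := fun k ω => (w k).fn (pt D n ω))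
    (fun k => h1 _ (hw k)) ?_
  rw [tendsto_pi_nhds]
  intro ω
  exact ((continuous_fn D (pt D n ω)).tendsto x).comp hwx

lemma aestronglyMeasurable_fn (n : ℕ) {f : (Om → Bool) → XX D}
    (hf : AEStronglyMeasurable f PP) :
    AEStronglyMeasurable (fun ω => (f ω).fn (pt D n ω)) PP := by
  have hg := hf.stronglyMeasurable_mk
  have h1 : Measurable fun ω => (hf.mk f ω).fn (pt D n ω) := by
    refine measurable_of_tendsto_metrizable
      (f := fun k ω => (hg.approx k ω).fn (pt D n ω)) (fun k => ?_) ?_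
    · exact (hg.approx k).measurable_bind (fun x ω => x.fn (pt D n ω)) fun x => measurable_fn D n x
    · rw [tendsto_pi_nhds]
      intro ω
      exact ((continuous_fn D (pt D n ω)).tendsto _).comp (hg.tendsto_approx ω)
  refine ⟨_, h1.stronglyMeasurable, ?_⟩
  filter_upwards [hf.ae_eq_mk] with ω hω
  rw [hω]

section Lp

variable (p : ℝ≥0∞) [hp : Fact (1 ≤ p)]

lemma integrable_Lp (f : Lp (XX D) p PP) : Integrable (fun ω => f ω) PP :=
  memLp_one_iff_integrable.1 ((Lp.memLp f).mono_exponent hp.out)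

lemma integrable_fn (n : ℕ) (f : Lp (XX D) p PP) :
    Integrable (fun ω => (f ω).fn (pt D n ω)) PP := by
  refine (integrable_Lp D p f).norm.mono' (aestronglyMeasurable_fn D n (Lp.aestronglyMeasurable f))
    (Eventually.of_forall fun ω => ?_)
  rw [Real.norm_eq_abs]
  exact abs_fn_le D _ _

/-- the functional number `n` -/
noncomputable def Psi (n : ℕ) : Lp (XX D) p PP →L[ℝ] ℝ :=
  LinearMap.mkContinuous
    { toFun := fun f => ∫ ω, (f ω).fn (pt D n ω) ∂PP
      map_add' := fun f g => by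
        rw [← integral_add (integrable_fn D p n f) (integrable_fn D p n g)]
        refine integral_congr_ae ?_
        filter_upwards [Lp.coeFn_add f g] with ω hω
        rw [hω]
        rfl
      map_smul' := fun a f => by
        rw [RingHom.id_apply, smul_eq_mul, ← integral_const_mul]
        refine integral_congr_ae ?_
        filter_upwards [Lp.coeFn_smul a f] with ω hω
        rw [hω]
        rfl } 1 fun f => by
      change ‖∫ ω, (f ω).fn (pt D n ω) ∂PP‖ ≤ 1 * ‖f‖
      rw [one_mul]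
      have h1 : ‖∫ ω, (f ω).fn (pt D n ω) ∂PP‖ ≤ ∫ ω, ‖f ω‖ ∂PP :=
        norm_integral_le_of_norm_le (integrable_Lp D p f).norm (Eventually.of_forall fun ω => by
          rw [Real.norm_eq_abs]
          exact abs_fn_le D _ _)
      refine h1.trans ?_
      rw [integral_norm_eq_lintegral_enorm (Lp.aestronglyMeasurable f),
        ← eLpNorm_one_eq_lintegral_enorm, Lp.norm_def]
      exact ENNReal.toReal_mono (Lp.eLpNorm_ne_top f)
        (eLpNorm_le_eLpNorm_of_exponent_le hp.out (Lp.aestronglyMeasurable f))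

lemma norm_Psi_le (n : ℕ) : ‖Psi D p n‖ ≤ 1 := LinearMap.mkContinuous_norm_le _ zero_le_one _

lemma Psi_apply (n : ℕ) (f : Lp (XX D) p PP) :
    Psi D p n f = ∫ ω, (f ω).fn (pt D n ω) ∂PP := rfl

omit hp in
lemma memLp_test (γ : Om) : MemLp (fun ω : Om → Bool => sg (ω γ) • xe D γ) p PP := by
  refine MemLp.of_bound ?_ 1 (Eventually.of_forall fun ω => ?_)
  · exact ((measurable_sg.comp (measurable_pi_apply γ)).stronglyMeasurable.smul_const
      (xe D γ)).aestronglyMeasurable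
  · rw [norm_smul, Real.norm_eq_abs, abs_sg, one_mul]
    exact norm_xe_le D γ

/-- the test function -/
noncomputable def tst (γ : Om) : Lp (XX D) p PP := (memLp_test D p γ).toLp _

lemma Psi_tst (n : ℕ) (γ : Om) :
    Psi D p n (tst D p γ) = ∫ ω, sg (ω γ) * zz D n ω γ ∂PP := by
  rw [Psi_apply]
  refine integral_congr_ae ?_
  filter_upwards [(memLp_test D p γ).coeFn_toLp] with ω hω
  unfold tst
  rw [hω]
  rfl

lemma Psi_tst_zero {n : ℕ} {γ : Om} (h : n ∉ D.S γ) : Psi D p n (tst D p γ) = 0 := by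
  rw [Psi_tst]
  have h1 : ∀ ω, zz D n ω γ = 0 := fun ω => by
    rw [zz_eq, if_neg fun h2 => h h2.1]
  simp [h1]

lemma Psi_tst_half {n : ℕ} {γ : Om} (h : n ∈ D.S γ) : 1 / 2 ≤ Psi D p n (tst D p γ) := by
  rw [Psi_tst]
  have h1 : ∀ ω, sg (ω γ) * zz D n ω γ =
      {ω : Om → Bool | Good D γ (zz D n ω)}.indicator (fun _ => (1 : ℝ)) ω := by
    intro ω
    rw [zz_eq]
    by_cases h2 : Good D γ (zz D n ω)
    · rw [if_pos ⟨h, h2⟩, indicator_of_mem (by exact h2), sg_mul_self]
    · rw [if_neg fun h3 => h2 h3.2, indicator_of_notMem (by exact h2), mul_zero]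
  simp only [h1]
  rw [integral_indicator_const _ (measurableSet_good D n γ), smul_eq_mul, mul_one]
  have h2 := ENNReal.toReal_mono (measure_ne_top PP _) (measure_good D n γ)
  have h3 : (2⁻¹ : ℝ≥0∞).toReal = 1 / 2 := by simp
  rw [h3] at h2
  exact h2

theorem not_dualBall_Lp : ¬ DualBallSeqCompact (Lp (XX D) p PP) := by
  intro h
  obtain ⟨ψ, -, k, hk, hψ⟩ := h (Psi D p) (norm_Psi_le D p)
  obtain ⟨γ, hγ⟩ := D.hS {m | ∃ i, m = k (2 * i)}
  have h1 := hψ (tst D p γ)
  have h2 : ∀ i, 1 / 2 ≤ Psi D p (k (2 * i)) (tst D p γ) := fun i =>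
    Psi_tst_half D p (by rw [hγ]; exact ⟨i, rfl⟩)
  have h3 : ∀ i, Psi D p (k (2 * i + 1)) (tst D p γ) = 0 := fun i =>
    Psi_tst_zero D p (by
      rw [hγ]
      rintro ⟨j, hj⟩
      have := hk.injective hj
      omega)
  have h4 : Tendsto (fun i : ℕ => 2 * i) atTop atTop :=
    tendsto_atTop_mono (fun i => by simp only [id]; omega) tendsto_id
  have h5 : Tendsto (fun i : ℕ => 2 * i + 1) atTop atTop :=
    tendsto_atTop_mono (fun i => by simp only [id]; omega) tendsto_id
  have h6 : 1 / 2 ≤ ψ (tst D p γ) := ge_of_tendsto' (h1.comp h4) h2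
  have h7 : ψ (tst D p γ) = 0 := by
    refine tendsto_nhds_unique (h1.comp h5) ?_
    refine tendsto_const_nhds.congr fun i => ?_
    exact (h3 i).symm
  rw [h7] at h6
  norm_num at h6

end Lp

/-! ### The continuum hypothesis -/

theorem exists_data (hCH : Cardinal.continuum.{0} = Cardinal.aleph 1) : Nonempty Data := by
  have h1 : Cardinal.mk Om = Cardinal.aleph 1 := by simp
  have h2 : Cardinal.mk (ℕ → Om) = Cardinal.mk Om := by
    rw [← Cardinal.power_def, h1, ← hCH]
    simp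
  have h3 : Cardinal.mk (Set ℕ) = Cardinal.mk Om := by
    rw [h1, ← hCH]
    simp
  obtain ⟨e⟩ := Cardinal.eq.1 h2
  obtain ⟨e'⟩ := Cardinal.eq.1 h3
  have h4 : ∀ γ : Om, ∃ q : ℕ → Om, ∀ ξ < γ, ∃ k, q k = ξ := by
    intro γ
    have := countable_Iio γ
    by_cases h5 : Nonempty {b : Om // b < γ}
    · obtain ⟨f, hf⟩ := exists_surjective_nat {b : Om // b < γ}
      refine ⟨fun k => (f k).1, fun ξ hξ => ?_⟩
      obtain ⟨k, hk⟩ := hf ⟨ξ, hξ⟩
      exact ⟨k, congrArg Subtype.val hk⟩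
    · exact ⟨fun _ => γ, fun ξ hξ => absurd ⟨⟨ξ, hξ⟩⟩ h5⟩
  choose q hq using h4
  exact ⟨{ c := e.symm
           q := q
           S := e'.symm
           hc := fun s => ⟨e s, e.symm_apply_apply s⟩
           hq := fun ξ γ h => hq γ ξ h
           hS := fun A => ⟨e' A, e'.symm_apply_apply A⟩ }⟩

/-- **Main theorem.**  (A) is a theorem on forcing: some notion of forcing `P` of type `Type` forces,
below every condition, that `ω₁` is preserved and that the continuum hypothesis holds.  (B) is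
proved from the usual axioms and the explicit hypothesis `2 ^ ℵ₀ = ℵ₁`: there are a probability
space and a Banach space `X` whose dual ball is weak* sequentially compact, such that for every
`1 ≤ p ≤ ∞` the dual ball of the Lebesgue-Bochner space `L^p(μ, X)` is not weak* sequentially
compact. -/
theorem result :
    (∃ (P : Type) (_ : Preorder P), Nonempty P ∧ ∀ p : P,
      p ∈ Pool.Agent.Helper292.ForceCH.OmegaOnePreserved P ∧
      p ∈ Pool.Agent.Helper292.ForceCH.CHHolds P) ∧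
    (Cardinal.continuum.{0} = Cardinal.aleph 1 →
      ∃ (Ω : Type) (_ : MeasurableSpace Ω) (μ : Measure Ω) (_ : IsProbabilityMeasure μ)
        (X : Type) (_ : NormedAddCommGroup X) (_ : NormedSpace ℝ X) (_ : CompleteSpace X),
        DualBallSeqCompact X ∧
        ∀ (p : ℝ≥0∞) [Fact (1 ≤ p)], ¬ DualBallSeqCompact (Lp X p μ)) := by
  refine ⟨?_, fun hCH => ?_⟩
  · obtain ⟨P, hP, hne, h⟩ := Pool.Agent.Helper292.ForceCH.exists_forcing
    exact ⟨P, hP, hne, fun p => ⟨(h p).1, (h p).2.2⟩⟩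
  · obtain ⟨D⟩ := exists_data hCH
    exact ⟨Om → Bool, inferInstance, PP, inferInstance, XX D, inferInstance, inferInstance,
      inferInstance, dualBall_XX D, fun p _ => not_dualBall_Lp D p⟩

end Pool.Agent.Results.MP_33144e_an.UnderCH
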